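import Mathlib

/-!
# Random labels of one row

A row is a function `c : Fin M → Fin D`; the vertex `x` is labelled if `c x` is `0` or `1`.
-/

set_option autoImplicit false

namespace Pool.Agent.Y424.BC

open Finset

variable {M D : ℕ}

/-- the labelled elements of `S` -/
def labs (S : Finset (Fin M)) (c : Fin M → Fin D) : Finset (Fin M) :=
  S.filter (fun x => (c x).val < 2)

theorem card_two (hD : 2 ≤ D) : (univ.filter (fun c : Fin D => c.val < 2)).card = 2 := by
  have h : univ.filter (fun c : Fin D => c.val < 2) =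
      (univ : Finset (Fin 2)).map (Fin.castLEEmb hD) := by
    ext c
    simp only [mem_filter, mem_univ, true_and, mem_map]
    constructor
    · intro h
      exact ⟨⟨c.val, h⟩, by ext; simp⟩
    · rintro ⟨a, rfl⟩
      have := a.isLt
      simp only [Fin.coe_castLEEmb, Fin.val_castLE]
      exact this
  rw [h, card_map, card_univ, Fintype.card_fin]

theorem card_ge_two (hD : 2 ≤ D) : (univ.filter (fun c : Fin D => ¬ c.val < 2)).card = D - 2 := by
  have h := card_filter_add_card_filter_not (s := (univ : Finset (Fin D))) (fun c => c.val < 2)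
  rw [card_two hD, card_univ, Fintype.card_fin] at h
  omega

/-- the rows in which all elements of `K` are labelled -/
theorem card_cells (hD : 2 ≤ D) (K : Finset (Fin M)) :
    (univ.filter (fun c : Fin M → Fin D => ∀ x ∈ K, (c x).val < 2)).card * D ^ K.card =
      2 ^ K.card * D ^ M := by
  classical
  have h : univ.filter (fun c : Fin M → Fin D => ∀ x ∈ K, (c x).val < 2) =
      Fintype.piFinset (fun x => if x ∈ K then univ.filter (fun c : Fin D => c.val < 2)
        else univ) := by
    ext c
    simp only [mem_filter, mem_univ, true_and, Fintype.mem_piFinset]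
    constructor
    · intro h x
      by_cases hx : x ∈ K
      · rw [if_pos hx]
        simpa using h x hx
      · rw [if_neg hx]
        exact mem_univ _
    · intro h x hx
      have := h x
      rw [if_pos hx] at this
      simpa using this
  rw [h, Fintype.card_piFinset]
  have h2 : ∀ x, (if x ∈ K then univ.filter (fun c : Fin D => c.val < 2) else univ).card =
      if x ∈ K then 2 else D := by
    intro x
    split_ifs
    · exact card_two hD
    · rw [card_univ, Fintype.card_fin]
  rw [prod_congr rfl (fun x _ => h2 x), prod_ite, prod_const, prod_const]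
  have h3 : (univ.filter (fun x => x ∈ K)) = K := by ext; simp
  have h4 : (univ.filter (fun x => ¬ x ∈ K)).card = M - K.card := by
    have h := card_filter_add_card_filter_not (s := (univ : Finset (Fin M))) (fun x => x ∈ K)
    rw [h3, card_univ, Fintype.card_fin] at h
    omega
  rw [h3, h4, mul_assoc, ← pow_add]
  congr 2
  have : K.card ≤ M := by
    have := card_le_univ K
    rwa [Fintype.card_fin] at this
  omega

theorem card_cells_real (hD : 2 ≤ D) (K : Finset (Fin M)) :
    ((univ.filter (fun c : Fin M → Fin D => ∀ x ∈ K, (c x).val < 2)).card : ℝ) =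
      (2 / D) ^ K.card * D ^ M := by
  have h := card_cells hD K
  have hD0 : (0 : ℝ) < D := by exact_mod_cast (by omega : 0 < D)
  have h' : ((univ.filter (fun c : Fin M → Fin D => ∀ x ∈ K, (c x).val < 2)).card : ℝ) *
      D ^ K.card = 2 ^ K.card * D ^ M := by exact_mod_cast h
  rw [div_pow]
  field_simp
  linarith

/-- two labelled elements in `T` -/
theorem sum_two (hD : 2 ≤ D) (T : Finset (Fin M)) :
    ∑ c : Fin M → Fin D, (if 2 ≤ (labs T c).card then (2 : ℝ) else 1) ≤
      D ^ M * (1 + 4 * (T.card.choose 2) / D ^ 2) := by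
  classical
  have h1 : ∀ c : Fin M → Fin D, (if 2 ≤ (labs T c).card then (2 : ℝ) else 1) ≤
      1 + ∑ p ∈ T.powersetCard 2, (if ∀ x ∈ p, (c x).val < 2 then (1 : ℝ) else 0) := by
    intro c
    have hnn : ∀ p ∈ T.powersetCard 2, (0 : ℝ) ≤ (if ∀ x ∈ p, (c x).val < 2 then (1 : ℝ) else 0) :=
      fun p _ => by split_ifs <;> norm_num
    by_cases h : 2 ≤ (labs T c).card
    · rw [if_pos h]
      obtain ⟨p, hp, hpc⟩ := exists_subset_card_eq h
      have h2 : p ∈ T.powersetCard 2 := mem_powersetCard.2 ⟨hp.trans (filter_subset _ _), hpc⟩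
      have h3 := single_le_sum hnn h2
      rw [if_pos (fun x hx => (mem_filter.1 (hp hx)).2)] at h3
      linarith
    · rw [if_neg h]
      have := sum_nonneg hnn
      linarith
  refine (sum_le_sum (fun c _ => h1 c)).trans ?_
  rw [sum_add_distrib, sum_comm]
  have h2 : ∀ p ∈ T.powersetCard 2, ∑ c : Fin M → Fin D,
      (if ∀ x ∈ p, (c x).val < 2 then (1 : ℝ) else 0) = (2 / D) ^ 2 * D ^ M := by
    intro p hp
    rw [sum_boole, card_cells_real hD p, (mem_powersetCard.1 hp).2]
  rw [sum_congr rfl h2, sum_const, sum_const, card_powersetCard, card_univ, Fintype.card_fun,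
    Fintype.card_fin, Fintype.card_fin]
  have hD0 : (0 : ℝ) < D := by exact_mod_cast (by omega : 0 < D)
  simp only [nsmul_eq_mul, mul_one]
  push_cast
  apply le_of_eq
  field_simp
  ring

/-- the weight of a row -/
def hv (S : Finset (Fin M)) (c : Fin M → Fin D) : ℕ :=
  if 3 ≤ (labs S c).card then (labs S c).card else 0

/-- three or more labelled elements -/
theorem sum_three (hD : 2 ≤ D) (S : Finset (Fin M)) (z : ℝ) (hz : 0 ≤ z)
    (hs : 1 ≤ S.card) (hzD : 2 * S.card * z ≤ D) :
    ∑ c : Fin M → Fin D, z ^ (hv S c) ≤ D ^ M * (1 + 3 * (2 * S.card * z / D) ^ 3) := by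
  classical
  have hD0 : (0 : ℝ) < D := by exact_mod_cast (by omega : 0 < D)
  have hs0 : (0 : ℝ) < S.card := by exact_mod_cast hs
  set F := S.powerset.filter (fun K => 3 ≤ K.card) with hF
  have h1 : ∀ c : Fin M → Fin D, z ^ (hv S c) ≤
      1 + ∑ K ∈ F, (if ∀ x ∈ K, (c x).val < 2 then z ^ K.card else 0) := by
    intro c
    have hnn : ∀ K ∈ F, (0 : ℝ) ≤ (if ∀ x ∈ K, (c x).val < 2 then z ^ K.card else 0) :=
      fun K _ => by split_ifs <;> positivity
    unfold hv
    by_cases h : 3 ≤ (labs S c).card
    · rw [if_pos h]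
      have h2 : labs S c ∈ F := mem_filter.2 ⟨mem_powerset.2 (filter_subset _ _), h⟩
      have h3 := single_le_sum hnn h2
      have h4 : ∀ x ∈ labs S c, (c x).val < 2 := fun x hx => (mem_filter.1 hx).2
      simp only [if_pos h4] at h3
      linarith
    · rw [if_neg h, pow_zero]
      have := sum_nonneg hnn
      linarith
  refine (sum_le_sum (fun c _ => h1 c)).trans ?_
  rw [sum_add_distrib, sum_comm]
  have h2 : ∀ K ∈ F, ∑ c : Fin M → Fin D,
      (if ∀ x ∈ K, (c x).val < 2 then z ^ K.card else 0) = (2 * z / D) ^ K.card * D ^ M := by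
    intro K _
    have e : ∀ c : Fin M → Fin D, (if ∀ x ∈ K, (c x).val < 2 then z ^ K.card else 0) =
        z ^ K.card * (if ∀ x ∈ K, (c x).val < 2 then (1 : ℝ) else 0) := fun c => by
      split_ifs <;> ring
    rw [sum_congr rfl (fun c _ => e c), ← mul_sum, sum_boole, card_cells_real hD K]
    rw [div_pow, div_pow, mul_pow]
    field_simp
  rw [sum_congr rfl h2, ← sum_mul, sum_const, card_univ, Fintype.card_fun,
    Fintype.card_fin, Fintype.card_fin]
  simp only [nsmul_eq_mul, mul_one]
  push_cast
  -- the sum over the sets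
  have h3 : ∑ K ∈ F, (2 * z / D) ^ K.card ≤ 3 * (2 * S.card * z / D) ^ 3 := by
    rcases hz.eq_or_lt with hz0 | hz0
    · rw [← hz0]
      apply le_of_eq
      rw [mul_zero, mul_zero, zero_div]
      rw [sum_eq_zero, zero_pow (by norm_num), mul_zero]
      intro K hK
      rw [zero_pow]
      have := (mem_filter.1 hK).2
      omega
    set y := 2 * z / D with hy
    have hy0 : 0 < y := by positivity
    have hsy : 2 * S.card * z / D = S.card * y := by rw [hy]; ring
    rw [hsy]
    set θ := 1 / (S.card * y) with hθ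
    have hθ1 : 1 ≤ θ := by
      rw [hθ, le_div_iff₀ (by positivity), one_mul, ← hsy, div_le_one hD0]
      exact hzD
    have h4 : ∀ K ∈ F, y ^ K.card ≤ (S.card * y) ^ 3 * (θ * y) ^ K.card := by
      intro K hK
      have hK3 := (mem_filter.1 hK).2
      have e1 : (S.card * y) ^ 3 * θ ^ 3 = 1 := by
        rw [← mul_pow, hθ]
        rw [mul_one_div_cancel (by positivity), one_pow]
      have e2 : θ ^ 3 ≤ θ ^ K.card := pow_le_pow_right₀ hθ1 hK3
      rw [mul_pow]
      calc y ^ K.card = ((S.card * y) ^ 3 * θ ^ 3) * y ^ K.card := by rw [e1, one_mul]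
        _ ≤ ((S.card * y) ^ 3 * θ ^ K.card) * y ^ K.card := by gcongr
        _ = _ := by ring_nf
    have h5 : ∑ K ∈ S.powerset, (θ * y) ^ K.card = (θ * y + 1) ^ S.card := by
      have := Finset.sum_pow_mul_eq_add_pow (θ * y) 1 S
      simp only [one_pow, mul_one] at this
      exact this
    calc ∑ K ∈ F, y ^ K.card ≤ ∑ K ∈ F, (S.card * y) ^ 3 * (θ * y) ^ K.card := sum_le_sum h4
      _ ≤ ∑ K ∈ S.powerset, (S.card * y) ^ 3 * (θ * y) ^ K.card :=
          sum_le_sum_of_subset_of_nonneg (filter_subset _ _) (fun _ _ _ => by positivity)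
      _ = (S.card * y) ^ 3 * (θ * y + 1) ^ S.card := by rw [← mul_sum, h5]
      _ ≤ (S.card * y) ^ 3 * 3 := by
          apply mul_le_mul_of_nonneg_left _ (by positivity)
          have e3 : θ * y = 1 / S.card := by
            rw [hθ]
            field_simp
          rw [e3]
          calc (1 / (S.card : ℝ) + 1) ^ S.card ≤ (Real.exp (1 / S.card)) ^ S.card :=
                pow_le_pow_left₀ (by positivity) (Real.add_one_le_exp _) _
            _ = Real.exp 1 := by
                rw [← Real.exp_nat_mul]
                congr 1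
                field_simp
            _ ≤ 3 := by
                have := Real.exp_one_lt_d9
                linarith
      _ = _ := by ring
  calc (D : ℝ) ^ M + (∑ K ∈ F, (2 * z / D) ^ K.card) * D ^ M ≤
      D ^ M + (3 * (2 * S.card * z / D) ^ 3) * D ^ M := by gcongr
    _ = _ := by ring

/-- rows in which no pair of elements of `S` has the labels `0` and `1` -/
theorem card_bad (hD : 2 ≤ D) (S : Finset (Fin M)) (hs : 2 ≤ S.card) (hsD : 4 * S.card ≤ D) :
    ((univ.filter (fun c : Fin M → Fin D =>
      ¬ ∃ x ∈ S, ∃ y ∈ S, (c x).val = 0 ∧ (c y).val = 1)).card : ℝ) ≤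
      D ^ M * (1 - (S.card * (S.card - 1) : ℝ) / (2 * D ^ 2)) := by
  classical
  have hD0 : (0 : ℝ) < D := by exact_mod_cast (by omega : 0 < D)
  have hSM : S.card ≤ M := by
    have := card_le_univ S
    rwa [Fintype.card_fin] at this
  -- the rows with exactly one `0` and one `1`
  let E : Fin M × Fin M → Finset (Fin M → Fin D) := fun p =>
    Fintype.piFinset (fun u => if u = p.1 then {⟨0, by omega⟩} else if u = p.2 then {⟨1, by omega⟩}
      else if u ∈ S then univ.filter (fun c : Fin D => ¬ c.val < 2) else univ)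
  have hE : ∀ p ∈ S.offDiag, (E p).card * D ^ S.card = (D - 2) ^ (S.card - 2) * D ^ M := by
    rintro ⟨x, y⟩ hp
    rw [mem_offDiag] at hp
    obtain ⟨hx, hy, hxy⟩ := hp
    simp only at hx hy hxy
    simp only [E]
    rw [Fintype.card_piFinset]
    have hy' : y ∈ (univ.erase x : Finset (Fin M)) := mem_erase.2 ⟨hxy.symm, mem_univ _⟩
    rw [← mul_prod_erase univ _ (mem_univ x), ← mul_prod_erase _ _ hy']
    rw [if_pos rfl, card_singleton, one_mul, if_neg hxy.symm, if_pos rfl, card_singleton, one_mul]
    have h1 : ∏ u ∈ (univ.erase x).erase y, (if u = x then ({⟨0, by omega⟩} : Finset (Fin D))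
        else if u = y then {⟨1, by omega⟩} else if u ∈ S then univ.filter
          (fun c : Fin D => ¬ c.val < 2) else univ).card =
        ∏ u ∈ (univ.erase x).erase y, (if u ∈ S then D - 2 else D) := by
      apply prod_congr rfl
      intro u hu
      rw [mem_erase, mem_erase] at hu
      rw [if_neg hu.2.1, if_neg hu.1]
      split_ifs
      · exact card_ge_two hD
      · rw [card_univ, Fintype.card_fin]
    rw [h1, prod_ite, prod_const, prod_const]
    have h2 : (((univ.erase x).erase y).filter (fun u => u ∈ S)) = (S.erase x).erase y := by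
      ext u
      simp only [mem_filter, mem_erase, mem_univ, and_true]
      tauto
    have h3 : (((univ.erase x).erase y).filter (fun u => ¬ u ∈ S)).card = M - S.card := by
      have h := card_filter_add_card_filter_not (s := ((univ : Finset (Fin M)).erase x).erase y)
        (fun u => u ∈ S)
      have h5 : ((S.erase x).erase y).card = S.card - 2 := by
        rw [card_erase_of_mem (mem_erase.2 ⟨hxy.symm, hy⟩), card_erase_of_mem hx]
        omega
      rw [h2, h5, card_erase_of_mem hy', card_erase_of_mem (mem_univ x), card_univ,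
        Fintype.card_fin] at h
      omega
    have h5 : ((S.erase x).erase y).card = S.card - 2 := by
      rw [card_erase_of_mem (mem_erase.2 ⟨hxy.symm, hy⟩), card_erase_of_mem hx]
      omega
    rw [h2, h3, h5, mul_assoc, ← pow_add]
    congr 2
    omega
  have hdisj : ∀ p ∈ S.offDiag, ∀ p' ∈ S.offDiag, p ≠ p' → Disjoint (E p) (E p') := by
    rintro ⟨x, y⟩ hp ⟨x', y'⟩ hp' hne
    rw [mem_offDiag] at hp hp'
    simp only at hp hp'
    rw [Finset.disjoint_left]
    intro c hc hc'
    simp only [E, Fintype.mem_piFinset] at hc hc'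
    apply hne
    have hx0 : (c x).val = 0 := by
      have := hc x
      rw [if_pos rfl, mem_singleton] at this
      rw [this]
    have hy1 : (c y).val = 1 := by
      have := hc y
      rw [if_neg hp.2.2.symm, if_pos rfl, mem_singleton] at this
      rw [this]
    have hxx : x = x' := by
      by_contra h
      have := hc' x
      rw [if_neg h] at this
      by_cases h' : x = y'
      · rw [if_pos h', mem_singleton] at this
        rw [this] at hx0
        simp at hx0
      · rw [if_neg h', if_pos hp.1] at this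
        simp [hx0] at this
    have hyy : y = y' := by
      by_contra h
      have := hc' y
      by_cases h' : y = x'
      · rw [if_pos h', mem_singleton] at this
        rw [this] at hy1
        simp at hy1
      · rw [if_neg h', if_neg h, if_pos hp.2.1] at this
        simp [hy1] at this
    rw [hxx, hyy]
  have hsub : S.offDiag.biUnion E ⊆ univ.filter (fun c : Fin M → Fin D =>
      ∃ x ∈ S, ∃ y ∈ S, (c x).val = 0 ∧ (c y).val = 1) := by
    intro c hc
    obtain ⟨⟨x, y⟩, hp, hc⟩ := mem_biUnion.1 hc
    rw [mem_offDiag] at hp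
    simp only at hp
    simp only [E, Fintype.mem_piFinset] at hc
    refine mem_filter.2 ⟨mem_univ _, x, hp.1, y, hp.2.1, ?_, ?_⟩
    · have := hc x
      rw [if_pos rfl, mem_singleton] at this
      rw [this]
    · have := hc y
      rw [if_neg hp.2.2.symm, if_pos rfl, mem_singleton] at this
      rw [this]
  have hcard := card_le_card hsub
  rw [card_biUnion hdisj] at hcard
  have hsum : ((∑ p ∈ S.offDiag, (E p).card : ℕ) : ℝ) =
      (S.card * (S.card - 1) : ℝ) * ((D - 2 : ℝ) ^ (S.card - 2) * D ^ M / D ^ S.card) := by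
    push_cast
    have h1 : ∀ p ∈ S.offDiag, ((E p).card : ℝ) =
        (D - 2 : ℝ) ^ (S.card - 2) * D ^ M / D ^ S.card := by
      intro p hp
      have h2 := hE p hp
      rw [eq_div_iff (by positivity)]
      have h3 : (((E p).card * D ^ S.card : ℕ) : ℝ) = (((D - 2) ^ (S.card - 2) * D ^ M : ℕ) : ℝ) := by
        rw [h2]
      push_cast [Nat.cast_sub hD] at h3
      exact h3
    rw [sum_congr rfl h1, sum_const, offDiag_card, nsmul_eq_mul, Nat.cast_sub (by nlinarith)]
    push_cast
    ring
  have hlow : (1 : ℝ) / (2 * D ^ 2) * D ^ M ≤ (D - 2 : ℝ) ^ (S.card - 2) * D ^ M / D ^ S.card := by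
    have hbern := one_add_mul_le_pow (a := -(2 / (D : ℝ))) (by
      have : (2 : ℝ) / D ≤ 1 := by
        rw [div_le_one hD0]
        exact_mod_cast hD
      linarith) (S.card - 2)
    have e1 : (1 + -(2 / (D : ℝ))) = (D - 2) / D := by field_simp; ring
    rw [e1, div_pow] at hbern
    have e2 : (1 : ℝ) / 2 ≤ 1 + ((S.card - 2 : ℕ) : ℝ) * -(2 / (D : ℝ)) := by
      rw [Nat.cast_sub hs]
      push_cast
      have h4 : (4 : ℝ) * S.card ≤ D := by exact_mod_cast hsD
      have h5 : ((S.card : ℝ) - 2) * (2 / D) ≤ 1 / 2 := by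
        rw [mul_div_assoc', div_le_iff₀ hD0]
        linarith
      linarith
    have e3 : (D : ℝ) ^ S.card = D ^ (S.card - 2) * D ^ 2 := by
      rw [← pow_add]
      congr 1
      omega
    have e4 := e2.trans hbern
    rw [e3]
    have e5 : (D - 2 : ℝ) ^ (S.card - 2) * D ^ M / (D ^ (S.card - 2) * D ^ 2) =
        (D - 2 : ℝ) ^ (S.card - 2) / D ^ (S.card - 2) * (D ^ M / D ^ 2) := by
      field_simp
    rw [e5]
    calc (1 : ℝ) / (2 * D ^ 2) * D ^ M = 1 / 2 * (D ^ M / D ^ 2) := by ring
      _ ≤ _ := mul_le_mul_of_nonneg_right e4 (by positivity)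
  have htot := card_filter_add_card_filter_not (s := (univ : Finset (Fin M → Fin D)))
    (fun c => ∃ x ∈ S, ∃ y ∈ S, (c x).val = 0 ∧ (c y).val = 1)
  rw [card_univ, Fintype.card_fun, Fintype.card_fin, Fintype.card_fin] at htot
  have htot' : ((univ.filter (fun c : Fin M → Fin D =>
      ∃ x ∈ S, ∃ y ∈ S, (c x).val = 0 ∧ (c y).val = 1)).card : ℝ) +
      ((univ.filter (fun c : Fin M → Fin D =>
      ¬ ∃ x ∈ S, ∃ y ∈ S, (c x).val = 0 ∧ (c y).val = 1)).card : ℝ) = D ^ M := by
    exact_mod_cast htot
  have hcard' : ((∑ p ∈ S.offDiag, (E p).card : ℕ) : ℝ) ≤ ((univ.filter (fun c : Fin M → Fin D =>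
      ∃ x ∈ S, ∃ y ∈ S, (c x).val = 0 ∧ (c y).val = 1)).card : ℝ) := by
    exact_mod_cast hcard
  rw [hsum] at hcard'
  have hs1 : (0 : ℝ) ≤ S.card * (S.card - 1) := by
    have : (2 : ℝ) ≤ S.card := by exact_mod_cast hs
    nlinarith
  have h6 := mul_le_mul_of_nonneg_left hlow hs1
  have h7 : (S.card * (S.card - 1) : ℝ) * (1 / (2 * D ^ 2) * D ^ M) =
      D ^ M * ((S.card * (S.card - 1) : ℝ) / (2 * D ^ 2)) := by ring
  rw [mul_sub, mul_one]
  linarith

end Pool.Agent.Y424.BC
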