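import Pool.Agent.Y424.BC.Det

/-!
# Counting unions of complete bipartite graphs
-/

set_option autoImplicit false

namespace Pool.Agent.Y424.BC

open Finset

variable {W M D : ℕ}

theorem sum_prod (f : (Fin M → Fin D) → ℝ) :
    ∑ ω : Fin W → Fin M → Fin D, ∏ i, f (ω i) = (∑ c, f c) ^ W := (Fintype.sum_pow f W).symm

theorem one_add_pow_le (a b : ℝ) (ha : 0 ≤ a) (hb : 0 ≤ 1 + b) :
    (a * (1 + b)) ^ W ≤ a ^ W * Real.exp (W * b) := by
  rw [mul_pow]
  apply mul_le_mul_of_nonneg_left _ (by positivity)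
  calc (1 + b) ^ W ≤ (Real.exp b) ^ W := by
        apply pow_le_pow_left₀ hb
        rw [add_comm]
        exact Real.add_one_le_exp b
    _ = _ := by rw [← Real.exp_nat_mul]

theorem count_rows (hD : 2 ≤ D) (T : Finset (Fin M)) (P : ℕ) :
    ((univ.filter (fun ω : Fin W → Fin M → Fin D => P ≤ (rows T ω).card)).card : ℝ) * 2 ^ P ≤
      ((D : ℝ) ^ M) ^ W * Real.exp (W * (4 * (T.card.choose 2) / D ^ 2)) := by
  classical
  have h1 : ∀ ω : Fin W → Fin M → Fin D, ∏ i, (if 2 ≤ (labs T (ω i)).card then (2 : ℝ) else 1) =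
      2 ^ (rows T ω).card := by
    intro ω
    rw [prod_ite, prod_const, prod_const_one, mul_one]
    rfl
  calc ((univ.filter (fun ω : Fin W → Fin M → Fin D => P ≤ (rows T ω).card)).card : ℝ) * 2 ^ P =
      ∑ ω ∈ univ.filter (fun ω : Fin W → Fin M → Fin D => P ≤ (rows T ω).card), (2 : ℝ) ^ P := by
        rw [sum_const, nsmul_eq_mul]
    _ ≤ ∑ ω ∈ univ.filter (fun ω : Fin W → Fin M → Fin D => P ≤ (rows T ω).card),
        (2 : ℝ) ^ (rows T ω).card := by
        apply sum_le_sum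
        intro ω hω
        exact pow_le_pow_right₀ (by norm_num) (mem_filter.1 hω).2
    _ ≤ ∑ ω : Fin W → Fin M → Fin D, (2 : ℝ) ^ (rows T ω).card :=
        sum_le_sum_of_subset_of_nonneg (filter_subset _ _) (fun _ _ _ => by positivity)
    _ = (∑ c : Fin M → Fin D, (if 2 ≤ (labs T c).card then (2 : ℝ) else 1)) ^ W := by
        rw [← sum_prod]
        exact sum_congr rfl (fun ω _ => (h1 ω).symm)
    _ ≤ ((D : ℝ) ^ M * (1 + 4 * (T.card.choose 2) / D ^ 2)) ^ W := by
        apply pow_le_pow_left₀ (sum_nonneg (fun c _ => by split_ifs <;> norm_num))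
        exact sum_two hD T
    _ ≤ _ := one_add_pow_le _ _ (by positivity) (by positivity)

theorem count_heavy (hD : 2 ≤ D) (S : Finset (Fin M)) (q : ℕ) (w : ℝ) (hw : 1 ≤ w)
    (hs : 1 ≤ S.card) (hwD : 2 * S.card * w ^ 2 ≤ D) :
    ((univ.filter (fun ω : Fin W → Fin M → Fin D => q ≤ 2 * wt S ω)).card : ℝ) * w ^ q ≤
      ((D : ℝ) ^ M) ^ W * Real.exp (W * (3 * (2 * S.card * w ^ 2 / D) ^ 3)) := by
  classical
  have h1 : ∀ ω : Fin W → Fin M → Fin D, ∏ i, (w ^ 2) ^ (hv S (ω i)) = w ^ (2 * wt S ω) := by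
    intro ω
    rw [prod_pow_eq_pow_sum, ← pow_mul]
    rfl
  calc ((univ.filter (fun ω : Fin W → Fin M → Fin D => q ≤ 2 * wt S ω)).card : ℝ) * w ^ q =
      ∑ ω ∈ univ.filter (fun ω : Fin W → Fin M → Fin D => q ≤ 2 * wt S ω), w ^ q := by
        rw [sum_const, nsmul_eq_mul]
    _ ≤ ∑ ω ∈ univ.filter (fun ω : Fin W → Fin M → Fin D => q ≤ 2 * wt S ω), w ^ (2 * wt S ω) := by
        apply sum_le_sum
        intro ω hω
        exact pow_le_pow_right₀ hw (mem_filter.1 hω).2
    _ ≤ ∑ ω : Fin W → Fin M → Fin D, w ^ (2 * wt S ω) :=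
        sum_le_sum_of_subset_of_nonneg (filter_subset _ _) (fun _ _ _ => by positivity)
    _ = (∑ c : Fin M → Fin D, (w ^ 2) ^ (hv S c)) ^ W := by
        rw [← sum_prod]
        exact sum_congr rfl (fun ω _ => (h1 ω).symm)
    _ ≤ ((D : ℝ) ^ M * (1 + 3 * (2 * S.card * w ^ 2 / D) ^ 3)) ^ W := by
        apply pow_le_pow_left₀ (sum_nonneg (fun c _ => by positivity))
        exact sum_three hD S (w ^ 2) (by positivity) hs hwD
    _ ≤ _ := one_add_pow_le _ _ (by positivity) (by positivity)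

/-- no pair of elements of `S` is adjacent -/
def indep (S : Finset (Fin M)) (ω : Fin W → Fin M → Fin D) : Prop :=
  ∀ i, ¬ ∃ x ∈ S, ∃ y ∈ S, (ω i x).val = 0 ∧ (ω i y).val = 1

open Classical in
theorem count_indep (hD : 2 ≤ D) (S : Finset (Fin M)) (hs : 2 ≤ S.card) (hsD : 4 * S.card ≤ D) :
    ((univ.filter (fun ω : Fin W → Fin M → Fin D => indep S ω)).card : ℝ) ≤
      ((D : ℝ) ^ M) ^ W * Real.exp (W * -((S.card * (S.card - 1) : ℝ) / (2 * D ^ 2))) := by
  have h : univ.filter (fun ω : Fin W → Fin M → Fin D => indep S ω) =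
      Fintype.piFinset (fun _ : Fin W => univ.filter (fun c : Fin M → Fin D =>
        ¬ ∃ x ∈ S, ∃ y ∈ S, (c x).val = 0 ∧ (c y).val = 1)) := by
    ext ω
    simp only [mem_filter, mem_univ, true_and, Fintype.mem_piFinset, indep]
  rw [h, Fintype.card_piFinset, prod_const, card_univ, Fintype.card_fin, Nat.cast_pow]
  have hD0 : (0 : ℝ) < D := by exact_mod_cast (by omega : 0 < D)
  have hsR : (2 : ℝ) ≤ S.card := by exact_mod_cast hs
  have hsDR : (4 : ℝ) * S.card ≤ D := by exact_mod_cast hsD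
  have h1 : (0 : ℝ) ≤ 1 + -((S.card * (S.card - 1) : ℝ) / (2 * D ^ 2)) := by
    have : (S.card * (S.card - 1) : ℝ) / (2 * D ^ 2) ≤ 1 := by
      rw [div_le_one (by positivity)]
      nlinarith
    linarith
  refine le_trans ?_ (one_add_pow_le _ _ (by positivity) h1)
  apply pow_le_pow_left₀ (Nat.cast_nonneg _)
  have := card_bad hD S hs hsD
  rw [sub_eq_add_neg] at this
  exact this

theorem indep_of (S : Finset (Fin M)) (ω : Fin W → Fin M → Fin D)
    (h : ∀ x ∈ S, ∀ y ∈ S, x ≠ y → ¬ (gr ω).Adj x y) : indep S ω := by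
  rintro i ⟨x, hx, y, hy, h0, h1⟩
  have hxy : x ≠ y := by
    rintro rfl
    omega
  exact h x hx y hy hxy ⟨i, Or.inl ⟨h0, h1⟩⟩

/-- There are rows for which the graph has neither a clique nor an independent set with `s`
elements. -/
theorem exists_good (hD : 2 ≤ D) (s t h : ℕ) (w : ℝ) (hw : 1 ≤ w) (hs : 2 ≤ s)
    (hsD : 4 * s ≤ D) (hwD : 2 * s * w ^ 2 ≤ D) (ht : t * 2 ^ (h + 1) ≤ s)
    (hA : (M : ℝ) ^ s * (Real.exp (W * (3 * (2 * s * w ^ 2 / D) ^ 3)) / w ^ ((h + 1) * s)) ≤ 1 / 4)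
    (hB : (M : ℝ) ^ t * (Real.exp (W * (4 * (t.choose 2) / D ^ 2)) / 2 ^ (t.choose 2)) ≤ 1 / 4)
    (hC : (M : ℝ) ^ s * Real.exp (W * -((s * (s - 1) : ℝ) / (2 * D ^ 2))) ≤ 1 / 4) :
    ∃ ω : Fin W → Fin M → Fin D, (gr ω).CliqueFree s ∧ (gr ω)ᶜ.CliqueFree s := by
  classical
  by_contra hcon
  push Not at hcon
  set Q : ℝ := ((D : ℝ) ^ M) ^ W with hQ
  have hD0 : (0 : ℝ) < D := by exact_mod_cast (by omega : 0 < D)
  have hQ0 : 0 < Q := by positivity
  let A := (univ.powersetCard s : Finset (Finset (Fin M))).biUnion (fun S =>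
    univ.filter (fun ω : Fin W → Fin M → Fin D => (h + 1) * s ≤ 2 * wt S ω))
  let B := (univ.powersetCard t : Finset (Finset (Fin M))).biUnion (fun T =>
    univ.filter (fun ω : Fin W → Fin M → Fin D => t.choose 2 ≤ (rows T ω).card))
  let C := (univ.powersetCard s : Finset (Finset (Fin M))).biUnion (fun S =>
    univ.filter (fun ω : Fin W → Fin M → Fin D => indep S ω))
  have hcover : (univ : Finset (Fin W → Fin M → Fin D)) ⊆ (A ∪ B) ∪ C := by
    intro ω _
    by_cases h1 : (gr ω).CliqueFree s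
    · have h2 := hcon ω h1
      rw [SimpleGraph.CliqueFree] at h2
      push Not at h2
      obtain ⟨S, hS⟩ := h2
      refine mem_union_right _ (mem_biUnion.2 ⟨S, mem_powersetCard.2 ⟨subset_univ _, hS.card_eq⟩,
        mem_filter.2 ⟨mem_univ _, indep_of S ω ?_⟩⟩)
      intro x hx y hy hxy
      have := hS.isClique hx hy hxy
      rw [SimpleGraph.compl_adj] at this
      exact this.2
    · rw [SimpleGraph.CliqueFree] at h1
      push Not at h1
      obtain ⟨S, hS⟩ := h1
      apply mem_union_left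
      rcases det ω S h t (fun x hx y hy hxy => hS.isClique hx hy hxy)
        (by rw [hS.card_eq]; exact ht) with h3 | ⟨T, -, hTc, hT⟩
      · rw [hS.card_eq] at h3
        exact mem_union_left _ (mem_biUnion.2 ⟨S, mem_powersetCard.2 ⟨subset_univ _, hS.card_eq⟩,
          mem_filter.2 ⟨mem_univ _, h3⟩⟩)
      · exact mem_union_right _ (mem_biUnion.2 ⟨T, mem_powersetCard.2 ⟨subset_univ _, hTc⟩,
          mem_filter.2 ⟨mem_univ _, hT⟩⟩)
  have hcards := card_le_card hcover
  have hU := (card_union_le (A ∪ B) C).trans (Nat.add_le_add_right (card_union_le A B) _)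
  have hcount := hcards.trans hU
  rw [card_univ, Fintype.card_fun, Fintype.card_fun, Fintype.card_fin, Fintype.card_fin,
    Fintype.card_fin] at hcount
  have hcountR : Q ≤ (A.card : ℝ) + B.card + C.card := by
    rw [hQ]
    exact_mod_cast hcount
  have hchoose : ∀ r : ℕ, (((univ.powersetCard r : Finset (Finset (Fin M))).card : ℕ) : ℝ) ≤
      (M : ℝ) ^ r := by
    intro r
    rw [card_powersetCard, card_univ, Fintype.card_fin]
    exact_mod_cast Nat.choose_le_pow M r
  have hbi : ∀ (r : ℕ) (F : Finset (Fin M) → Finset (Fin W → Fin M → Fin D)) (b : ℝ), 0 ≤ b →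
      (∀ S : Finset (Fin M), S.card = r → ((F S).card : ℝ) ≤ b) →
      ((((univ.powersetCard r : Finset (Finset (Fin M))).biUnion F).card : ℕ) : ℝ) ≤
        (M : ℝ) ^ r * b := by
    intro r F b hb hF
    have h1 : ((((univ.powersetCard r : Finset (Finset (Fin M))).biUnion F).card : ℕ) : ℝ) ≤
        ∑ S ∈ (univ.powersetCard r : Finset (Finset (Fin M))), ((F S).card : ℝ) := by
      exact_mod_cast card_biUnion_le
    refine h1.trans ((sum_le_sum (fun S hS => hF S (mem_powersetCard.1 hS).2)).trans ?_)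
    rw [sum_const, nsmul_eq_mul]
    exact mul_le_mul_of_nonneg_right (hchoose r) hb
  have hAc : (A.card : ℝ) ≤ Q / 4 := by
    have := hbi s (fun S => univ.filter (fun ω : Fin W → Fin M → Fin D => (h + 1) * s ≤ 2 * wt S ω))
      (Q * (Real.exp (W * (3 * (2 * s * w ^ 2 / D) ^ 3)) / w ^ ((h + 1) * s))) (by positivity) (by
        intro S hS
        have h1 := count_heavy (W := W) hD S ((h + 1) * s) w hw (by omega) (by rw [hS]; exact hwD)
        rw [hS] at h1
        rw [mul_div_assoc', le_div_iff₀ (by positivity)]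
        exact h1)
    refine this.trans ?_
    calc (M : ℝ) ^ s * (Q * (Real.exp (W * (3 * (2 * s * w ^ 2 / D) ^ 3)) / w ^ ((h + 1) * s))) =
        Q * ((M : ℝ) ^ s * (Real.exp (W * (3 * (2 * s * w ^ 2 / D) ^ 3)) / w ^ ((h + 1) * s))) := by
          ring
      _ ≤ Q * (1 / 4) := mul_le_mul_of_nonneg_left hA hQ0.le
      _ = Q / 4 := by ring
  have hBc : (B.card : ℝ) ≤ Q / 4 := by
    have := hbi t (fun T => univ.filter (fun ω : Fin W → Fin M → Fin D =>
        t.choose 2 ≤ (rows T ω).card))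
      (Q * (Real.exp (W * (4 * (t.choose 2) / D ^ 2)) / 2 ^ (t.choose 2))) (by positivity) (by
        intro T hT
        have h1 := count_rows (W := W) hD T (t.choose 2)
        rw [hT] at h1
        rw [mul_div_assoc', le_div_iff₀ (by positivity)]
        exact h1)
    refine this.trans ?_
    calc (M : ℝ) ^ t * (Q * (Real.exp (W * (4 * (t.choose 2) / D ^ 2)) / 2 ^ (t.choose 2))) =
        Q * ((M : ℝ) ^ t * (Real.exp (W * (4 * (t.choose 2) / D ^ 2)) / 2 ^ (t.choose 2))) := by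
          ring
      _ ≤ Q * (1 / 4) := mul_le_mul_of_nonneg_left hB hQ0.le
      _ = Q / 4 := by ring
  have hCc : (C.card : ℝ) ≤ Q / 4 := by
    have := hbi s (fun S => univ.filter (fun ω : Fin W → Fin M → Fin D => indep S ω))
      (Q * Real.exp (W * -((s * (s - 1) : ℝ) / (2 * D ^ 2)))) (by positivity) (by
        intro S hS
        have h1 := count_indep (W := W) hD S (by omega) (by omega)
        rw [hS] at h1
        exact h1)
    refine this.trans ?_
    calc (M : ℝ) ^ s * (Q * Real.exp (W * -((s * (s - 1) : ℝ) / (2 * D ^ 2)))) =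
        Q * ((M : ℝ) ^ s * Real.exp (W * -((s * (s - 1) : ℝ) / (2 * D ^ 2)))) := by
          ring
      _ ≤ Q * (1 / 4) := mul_le_mul_of_nonneg_left hC hQ0.le
      _ = Q / 4 := by ring
  linarith

end Pool.Agent.Y424.BC
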