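import Pool.Agent.Y424.BC.Cols

/-!
# Cliques in a union of complete bipartite graphs
-/

set_option autoImplicit false

namespace Pool.Agent.Y424.BC

open Finset

variable {W M D : ℕ}

/-- The union of the complete bipartite graphs given by the rows: the `i`-th one has the parts
`{x | ω i x = 0}` and `{x | ω i x = 1}`. -/
def gr (ω : Fin W → Fin M → Fin D) : SimpleGraph (Fin M) where
  Adj x y := ∃ i, ((ω i x).val = 0 ∧ (ω i y).val = 1) ∨ ((ω i x).val = 1 ∧ (ω i y).val = 0)
  symm := ⟨by
    rintro x y ⟨i, h | h⟩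
    · exact ⟨i, Or.inr ⟨h.2, h.1⟩⟩
    · exact ⟨i, Or.inl ⟨h.2, h.1⟩⟩⟩
  loopless := ⟨by
    rintro x ⟨i, h | h⟩
    · have := h.1
      have := h.2
      omega
    · have := h.1
      have := h.2
      omega⟩

/-- the total weight of the rows with three labelled elements of `S` -/
def wt (S : Finset (Fin M)) (ω : Fin W → Fin M → Fin D) : ℕ := ∑ i, hv S (ω i)

/-- the rows with at least two labelled elements of `T` -/
def rows (T : Finset (Fin M)) (ω : Fin W → Fin M → Fin D) : Finset (Fin W) :=
  univ.filter (fun i => 2 ≤ (labs T (ω i)).card)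

theorem card_fix (H : Finset (Fin W)) (b : Fin W → Bool) :
    (univ.filter (fun σ : Fin W → Bool => ∀ i ∈ H, σ i = b i)).card * 2 ^ H.card = 2 ^ W := by
  classical
  have h : univ.filter (fun σ : Fin W → Bool => ∀ i ∈ H, σ i = b i) =
      Fintype.piFinset (fun i => if i ∈ H then {b i} else univ) := by
    ext c
    simp only [mem_filter, mem_univ, true_and, Fintype.mem_piFinset]
    constructor
    · intro h x
      by_cases hx : x ∈ H
      · rw [if_pos hx, mem_singleton]
        exact h x hx
      · rw [if_neg hx]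
        exact mem_univ _
    · intro h x hx
      have := h x
      rwa [if_pos hx, mem_singleton] at this
  rw [h, Fintype.card_piFinset]
  have h2 : ∀ i, (if i ∈ H then ({b i} : Finset Bool) else univ).card =
      if i ∈ H then 1 else 2 := by
    intro x
    split_ifs
    · exact card_singleton _
    · rw [card_univ, Fintype.card_bool]
  rw [prod_congr rfl (fun x _ => h2 x), prod_ite, prod_const, prod_const, one_pow, one_mul]
  have h3 : (univ.filter (fun x => x ∈ H)) = H := by ext; simp
  have h4 : (univ.filter (fun x => ¬ x ∈ H)).card = W - H.card := by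
    have h := card_filter_add_card_filter_not (s := (univ : Finset (Fin W))) (fun x => x ∈ H)
    rw [h3, card_univ, Fintype.card_fin] at h
    omega
  rw [h4, ← pow_add]
  congr 1
  have : H.card ≤ W := by
    have := card_le_univ H
    rwa [Fintype.card_fin] at this
  omega

/-- Either the rows with three labelled elements have a large total weight, or there is a large
set all whose pairs are covered by different rows. -/
theorem det (ω : Fin W → Fin M → Fin D) (S : Finset (Fin M)) (h t : ℕ)
    (hcl : ∀ x ∈ S, ∀ y ∈ S, x ≠ y → (gr ω).Adj x y) (ht : t * 2 ^ (h + 1) ≤ S.card) :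
    (h + 1) * S.card ≤ 2 * wt S ω ∨ ∃ T ⊆ S, T.card = t ∧ t.choose 2 ≤ (rows T ω).card := by
  classical
  by_cases hcase : (h + 1) * S.card ≤ 2 * wt S ω
  · exact Or.inl hcase
  right
  rw [not_le] at hcase
  -- the heavy rows at an element
  let Hx : Fin M → Finset (Fin W) := fun x =>
    univ.filter (fun i => 3 ≤ (labs S (ω i)).card ∧ x ∈ labs S (ω i))
  have hsum : ∑ x ∈ S, (Hx x).card = wt S ω := by
    have e1 : ∀ x ∈ S, (Hx x).card =
        ∑ i, if 3 ≤ (labs S (ω i)).card ∧ x ∈ labs S (ω i) then 1 else 0 := by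
      intro x _
      simp only [Hx]
      rw [card_filter]
    rw [sum_congr rfl e1, sum_comm]
    unfold wt
    apply sum_congr rfl
    intro i _
    unfold hv
    by_cases h3 : 3 ≤ (labs S (ω i)).card
    · rw [if_pos h3]
      simp only [h3, true_and]
      rw [← card_filter]
      congr 1
      ext x
      simp only [labs, mem_filter]
      tauto
    · rw [if_neg h3]
      simp [h3]
  set S' := S.filter (fun x => (Hx x).card ≤ h) with hS'
  have hS'2 : S.card < 2 * S'.card := by
    have h1 := card_filter_add_card_filter_not (s := S) (fun x => (Hx x).card ≤ h)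
    rw [← hS'] at h1
    set S'' := S.filter (fun x => ¬ (Hx x).card ≤ h) with hS''
    have h2 : (h + 1) * S''.card ≤ wt S ω := by
      rw [← hsum]
      calc (h + 1) * S''.card = ∑ _x ∈ S'', (h + 1) := by rw [sum_const, smul_eq_mul, mul_comm]
        _ ≤ ∑ x ∈ S'', (Hx x).card := by
            apply sum_le_sum
            intro x hx
            have := (mem_filter.1 hx).2
            omega
        _ ≤ ∑ x ∈ S, (Hx x).card :=
            sum_le_sum_of_subset (filter_subset _ _)
    have h3 : (h + 1) * (2 * S''.card) < (h + 1) * S.card := by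
      calc (h + 1) * (2 * S''.card) = 2 * ((h + 1) * S''.card) := by ring
        _ ≤ 2 * wt S ω := by omega
        _ < _ := hcase
    have h4 := Nat.lt_of_mul_lt_mul_left h3
    omega
  -- the averaging
  let Ts : (Fin W → Bool) → Finset (Fin M) := fun σ =>
    S'.filter (fun x => ∀ i ∈ Hx x, σ i = decide ((ω i x).val = 1))
  have hav : ∃ σ, t ≤ (Ts σ).card := by
    by_contra hcon
    push Not at hcon
    have h1 : ∑ σ : Fin W → Bool, (Ts σ).card * 2 ^ h ≥ S'.card * 2 ^ W := by
      have e1 : ∀ σ : Fin W → Bool, (Ts σ).card =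
          ∑ x ∈ S', if ∀ i ∈ Hx x, σ i = decide ((ω i x).val = 1) then 1 else 0 := by
        intro σ
        simp only [Ts]
        rw [card_filter]
      rw [← sum_mul, sum_congr rfl (fun σ _ => e1 σ), sum_comm, sum_mul]
      have e2 : ∀ x ∈ S', 2 ^ W ≤ (∑ σ : Fin W → Bool,
          if ∀ i ∈ Hx x, σ i = decide ((ω i x).val = 1) then 1 else 0) * 2 ^ h := by
        intro x hx
        rw [← card_filter]
        rw [← card_fix (Hx x) (fun i => decide ((ω i x).val = 1))]
        exact Nat.mul_le_mul le_rfl (Nat.pow_le_pow_right (by norm_num) (mem_filter.1 hx).2)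
      calc S'.card * 2 ^ W = ∑ _x ∈ S', 2 ^ W := by rw [sum_const, smul_eq_mul]
        _ ≤ _ := sum_le_sum e2
    have h2 : ∑ σ : Fin W → Bool, (Ts σ).card * 2 ^ h ≤ 2 ^ W * (t * 2 ^ h) := by
      calc ∑ σ : Fin W → Bool, (Ts σ).card * 2 ^ h ≤ ∑ _σ : Fin W → Bool, t * 2 ^ h :=
            sum_le_sum (fun σ _ => Nat.mul_le_mul (hcon σ).le le_rfl)
        _ = _ := by
            rw [sum_const, card_univ, Fintype.card_fun, Fintype.card_bool, Fintype.card_fin,
              smul_eq_mul]
    have h3 : 2 ^ W * S.card < 2 ^ W * S.card := by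
      calc 2 ^ W * S.card < 2 ^ W * (2 * S'.card) :=
            Nat.mul_lt_mul_of_pos_left hS'2 (by positivity)
        _ = 2 * (S'.card * 2 ^ W) := by ring
        _ ≤ 2 * (2 ^ W * (t * 2 ^ h)) := Nat.mul_le_mul le_rfl (h1.le.trans h2)
        _ = 2 ^ W * (t * 2 ^ (h + 1)) := by ring
        _ ≤ 2 ^ W * S.card := Nat.mul_le_mul le_rfl ht
    exact lt_irrefl _ h3
  obtain ⟨σ, hσ⟩ := hav
  obtain ⟨T, hT, hTc⟩ := exists_subset_card_eq hσ
  have hTS : T ⊆ S := hT.trans ((filter_subset _ _).trans (filter_subset _ _))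
  refine ⟨T, hTS, hTc, ?_⟩
  have hsub : T.powersetCard 2 ⊆ (rows T ω).image (fun i => labs T (ω i)) := by
    intro p hp
    obtain ⟨hpT, hpc⟩ := mem_powersetCard.1 hp
    obtain ⟨x, y, hxy, rfl⟩ := card_eq_two.1 hpc
    have hx : x ∈ T := hpT (mem_insert_self _ _)
    have hy : y ∈ T := hpT (mem_insert_of_mem (mem_singleton_self _))
    obtain ⟨i, hi⟩ := hcl x (hTS hx) y (hTS hy) hxy
    have hxl : (ω i x).val < 2 := by rcases hi with hi | hi <;> rw [hi.1] <;> norm_num
    have hyl : (ω i y).val < 2 := by rcases hi with hi | hi <;> rw [hi.2] <;> norm_num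
    have hxS : x ∈ labs S (ω i) := mem_filter.2 ⟨hTS hx, hxl⟩
    have hyS : y ∈ labs S (ω i) := mem_filter.2 ⟨hTS hy, hyl⟩
    have hlight : (labs S (ω i)).card ≤ 2 := by
      by_contra hcon
      have h3 : 3 ≤ (labs S (ω i)).card := by omega
      have hix : i ∈ Hx x := mem_filter.2 ⟨mem_univ _, h3, hxS⟩
      have hiy : i ∈ Hx y := mem_filter.2 ⟨mem_univ _, h3, hyS⟩
      have e1 := (mem_filter.1 (hT hx)).2 i hix
      have e2 := (mem_filter.1 (hT hy)).2 i hiy
      rw [e1] at e2
      rcases hi with hi | hi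
      · rw [hi.1, hi.2] at e2
        simp at e2
      · rw [hi.1, hi.2] at e2
        simp at e2
    have hlabs : labs T (ω i) = {x, y} := by
      symm
      apply eq_of_subset_of_card_le
      · intro u hu
        rw [mem_insert, mem_singleton] at hu
        rcases hu with rfl | rfl
        · exact mem_filter.2 ⟨hx, hxl⟩
        · exact mem_filter.2 ⟨hy, hyl⟩
      · rw [hpc]
        exact (card_le_card (filter_subset_filter _ hTS)).trans hlight
    refine mem_image.2 ⟨i, mem_filter.2 ⟨mem_univ _, ?_⟩, hlabs⟩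
    rw [hlabs, hpc]
  have := (card_le_card hsub).trans card_image_le
  rw [card_powersetCard, hTc] at this
  exact this

end Pool.Agent.Y424.BC
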