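import Pool.Agent.Y424.BC.Count

/-!
# The lower bound of the rate
-/

set_option autoImplicit false

namespace Pool.Agent.Y424.BC

open Finset

/-- the conditions of `exists_good` for concrete numbers -/
theorem good_numbers (δ : ℝ) (hδ : 0 < δ) (h k m μ : ℕ) (hh : δ * 4 ^ h ≤ 1)
    (hk1 : 24 * 2 ^ h ≤ k) (hk2 : 96 ≤ δ * k) (hm1 : (k : ℝ) ^ 3 * 2 ^ (δ * k / 4) ≤ m)
    (hμ : (μ : ℝ) ≤ δ * h * k / 48) :
    ∃ ω : Fin (m ^ 2) → Fin (2 ^ μ) → Fin (4 * m), (gr ω).CliqueFree k ∧ (gr ω)ᶜ.CliqueFree k := by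
  have h2h : (1 : ℝ) ≤ 2 ^ h := one_le_pow₀ (by norm_num)
  have hk24 : (24 : ℝ) * 2 ^ h ≤ k := by exact_mod_cast hk1
  have hkR : (24 : ℝ) ≤ k := by linarith
  have hkN : 24 ≤ k := by exact_mod_cast hkR
  have hk0 : (0 : ℝ) < k := by linarith
  have hx0 : 0 ≤ δ * k := by positivity
  -- the weight
  set w : ℝ := 2 ^ (δ * k / 24) with hw
  have hw1 : 1 ≤ w := Real.one_le_rpow (by norm_num) (by positivity)
  have hw2 : (w ^ 2) ^ 3 = 2 ^ (δ * k / 4) := by
    rw [hw, ← pow_mul, ← Real.rpow_natCast, ← Real.rpow_mul (by norm_num)]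
    congr 1
    push_cast
    ring
  have hkw : ((k : ℝ) * w ^ 2) ^ 3 ≤ m := by
    rw [mul_pow, hw2]
    exact hm1
  have hkw1 : (1 : ℝ) ≤ k * w ^ 2 := by
    have : (1 : ℝ) ≤ w ^ 2 := one_le_pow₀ hw1
    nlinarith
  have hkw2 : (k : ℝ) * w ^ 2 ≤ m := (le_self_pow₀ hkw1 (by norm_num)).trans hkw
  have hkm : (k : ℝ) ≤ m := by
    refine le_trans ?_ hkw2
    have : (1 : ℝ) ≤ w ^ 2 := one_le_pow₀ hw1
    nlinarith
  have hkmN : k ≤ m := by exact_mod_cast hkm
  have hm0 : (0 : ℝ) < m := by linarith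
  -- the number `t`
  set t := k / 2 ^ (h + 1) with ht
  have htk : t * 2 ^ (h + 1) ≤ k := Nat.div_mul_le_self _ _
  have ht1 : (k : ℝ) / 2 ^ (h + 1) - 1 ≤ t := by
    have h1 := Nat.lt_div_mul_add (a := k) (b := 2 ^ (h + 1)) (by positivity)
    rw [← ht] at h1
    have h2 : (k : ℝ) < t * 2 ^ (h + 1) + 2 ^ (h + 1) := by exact_mod_cast h1
    rw [sub_le_iff_le_add, div_le_iff₀ (by positivity)]
    linarith
  have hδh : δ * h ≤ 1 / 2 ^ h := by
    rw [le_div_iff₀ (by positivity)]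
    have e1 : (h : ℝ) ≤ 2 ^ h := by exact_mod_cast (Nat.lt_two_pow_self (n := h)).le
    calc δ * h * 2 ^ h ≤ δ * 2 ^ h * 2 ^ h := by gcongr
      _ = δ * 4 ^ h := by
          rw [mul_assoc, ← mul_pow]
          norm_num
      _ ≤ 1 := hh
  have hμ2 : (μ : ℝ) ≤ k / 2 ^ h / 48 := by
    calc (μ : ℝ) ≤ δ * h * k / 48 := hμ
      _ ≤ (1 / 2 ^ h) * k / 48 := by gcongr
      _ = _ := by ring
  have hkh : (24 : ℝ) ≤ k / 2 ^ h := by
    rw [le_div_iff₀ (by positivity)]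
    exact hk24
  have ht2 : (k : ℝ) / 2 ^ h / 2 - 1 ≤ t := by
    have : (k : ℝ) / 2 ^ (h + 1) = k / 2 ^ h / 2 := by
      rw [pow_succ]
      field_simp
    rw [← this]
    exact ht1
  have hμ3 : (μ : ℝ) ≤ k / 48 := by
    refine hμ2.trans ?_
    have : (k : ℝ) / 2 ^ h ≤ k := div_le_self hk0.le h2h
    linarith
  have hDeq : ((4 * m : ℕ) : ℝ) = 4 * m := by push_cast; ring
  have hWeq : ((m ^ 2 : ℕ) : ℝ) = (m : ℝ) ^ 2 := by push_cast; ring
  have hMeq : ((2 ^ μ : ℕ) : ℝ) = (2 : ℝ) ^ μ := by push_cast; ring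
  have he1 : Real.exp 1 ≤ 4 := by
    have := Real.exp_one_lt_d9
    linarith
  have he2 : (2 : ℝ) ≤ Real.exp 1 := by
    have := Real.exp_one_gt_d9
    linarith
  apply exists_good (by omega) k t h w hw1 (by omega) (by omega)
  · rw [hDeq]
    linarith
  · exact htk
  · -- heavy rows
    rw [hDeq, hWeq, hMeq]
    have e1 : (m : ℝ) ^ 2 * (3 * (2 * k * w ^ 2 / (4 * m)) ^ 3) = 3 / 8 * ((k * w ^ 2) ^ 3 / m) := by
      field_simp
      ring
    have e2 : (m : ℝ) ^ 2 * (3 * (2 * k * w ^ 2 / (4 * m)) ^ 3) ≤ 1 := by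
      rw [e1]
      have : (k * w ^ 2) ^ 3 / m ≤ 1 := by
        rw [div_le_one hm0]
        exact hkw
      linarith
    have e3 : Real.exp ((m : ℝ) ^ 2 * (3 * (2 * k * w ^ 2 / (4 * m)) ^ 3)) ≤ 2 ^ (2 : ℝ) := by
      refine (Real.exp_le_exp.2 e2).trans (he1.trans ?_)
      norm_num
    have e4 : w ^ ((h + 1) * k) = 2 ^ (δ * k / 24 * ((h + 1) * k)) := by
      rw [hw, ← Real.rpow_natCast, ← Real.rpow_mul (by norm_num)]
      congr 1
      push_cast
      ring
    have e5 : ((2 : ℝ) ^ μ) ^ k = 2 ^ ((μ : ℝ) * k) := by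
      rw [← pow_mul, ← Real.rpow_natCast]
      push_cast
      rfl
    rw [e4, e5, mul_div_assoc', div_le_iff₀ (by positivity)]
    calc (2 : ℝ) ^ ((μ : ℝ) * k) * Real.exp ((m : ℝ) ^ 2 * (3 * (2 * k * w ^ 2 / (4 * m)) ^ 3)) ≤
        2 ^ ((μ : ℝ) * k) * 2 ^ (2 : ℝ) := by gcongr
      _ = 2 ^ (-2 : ℝ) * 2 ^ ((μ : ℝ) * k + 4) := by
          rw [← Real.rpow_add (by norm_num), ← Real.rpow_add (by norm_num)]
          congr 1
          ring
      _ ≤ 1 / 4 * 2 ^ (δ * k / 24 * ((h + 1) * k)) := by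
          have e6 : (2 : ℝ) ^ (-2 : ℝ) = 1 / 4 := by
            rw [Real.rpow_neg (by norm_num)]
            norm_num
          rw [e6]
          apply mul_le_mul_of_nonneg_left _ (by norm_num)
          apply Real.rpow_le_rpow_of_exponent_le (by norm_num)
          have e7 : (μ : ℝ) * k ≤ δ * h * k / 48 * k := mul_le_mul_of_nonneg_right hμ hk0.le
          have e8 : 0 ≤ δ * h * k * k := by positivity
          have e9 : 96 * (1 : ℝ) ≤ δ * k * k :=
            mul_le_mul hk2 (by linarith) (by norm_num) hx0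
          have e10 : δ * k / 24 * ((h + 1) * k) = δ * h * k * k / 24 + δ * k * k / 24 := by ring
          have e11 : δ * h * k / 48 * k = δ * h * k * k / 48 := by ring
          rw [e10]
          rw [e11] at e7
          linarith
  · -- sets all of whose pairs are covered
    rw [hDeq, hWeq, hMeq]
    set P := t.choose 2 with hP
    have hP2 : (P : ℝ) = t * (t - 1) / 2 := by
      rw [hP, Nat.cast_choose_two]
    have e1 : (m : ℝ) ^ 2 * (4 * P / (4 * m) ^ 2) = P / 4 := by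
      field_simp
    rw [e1]
    have e2 : Real.exp ((P : ℝ) / 4) ≤ 2 ^ ((P : ℝ) / 2) := by
      calc Real.exp ((P : ℝ) / 4) = (Real.exp 1) ^ ((P : ℝ) / 4) := by
            rw [← Real.exp_mul]
            congr 1
            ring
        _ ≤ 4 ^ ((P : ℝ) / 4) := Real.rpow_le_rpow (Real.exp_pos _).le he1 (by positivity)
        _ = 2 ^ ((P : ℝ) / 2) := by
            rw [show (4 : ℝ) = 2 ^ (2 : ℝ) by norm_num, ← Real.rpow_mul (by norm_num)]
            congr 1
            ring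
    have e5 : ((2 : ℝ) ^ μ) ^ t = 2 ^ ((μ : ℝ) * t) := by
      rw [← pow_mul, ← Real.rpow_natCast]
      push_cast
      rfl
    have e6 : (2 : ℝ) ^ P = 2 ^ (P : ℝ) := by
      rw [Real.rpow_natCast]
    rw [e5, e6, mul_div_assoc', div_le_iff₀ (by positivity)]
    calc (2 : ℝ) ^ ((μ : ℝ) * t) * Real.exp ((P : ℝ) / 4) ≤
        2 ^ ((μ : ℝ) * t) * 2 ^ ((P : ℝ) / 2) := by gcongr
      _ = 2 ^ (-2 : ℝ) * 2 ^ ((μ : ℝ) * t + (P : ℝ) / 2 + 2) := by
          rw [← Real.rpow_add (by norm_num), ← Real.rpow_add (by norm_num)]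
          congr 1
          ring
      _ ≤ 1 / 4 * 2 ^ (P : ℝ) := by
          have e7 : (2 : ℝ) ^ (-2 : ℝ) = 1 / 4 := by
            rw [Real.rpow_neg (by norm_num)]
            norm_num
          rw [e7]
          apply mul_le_mul_of_nonneg_left _ (by norm_num)
          apply Real.rpow_le_rpow_of_exponent_le (by norm_num)
          rw [hP2]
          have e8 : (11 : ℝ) ≤ t := by linarith
          have e9 : (μ : ℝ) + 2 ≤ (t - 1) / 4 := by linarith
          have e10 : ((μ : ℝ) + 2) * t ≤ (t - 1) / 4 * t :=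
            mul_le_mul_of_nonneg_right e9 (by linarith)
          have e11 : ((μ : ℝ) + 2) * t = μ * t + 2 * t := by ring
          have e12 : (t : ℝ) * (t - 1) / 2 / 2 = (t - 1) / 4 * t := by ring
          have e13 : (t : ℝ) * (t - 1) / 2 = (t - 1) / 4 * t + (t - 1) / 4 * t := by ring
          rw [e12, e13]
          rw [e11] at e10
          linarith
  · -- independent sets
    rw [hDeq, hWeq, hMeq]
    have e1 : (m : ℝ) ^ 2 * -((k * (k - 1) : ℝ) / (2 * (4 * m) ^ 2)) = -(k * (k - 1) / 32) := by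
      field_simp
      ring
    rw [e1]
    have e2 : Real.exp (-((k : ℝ) * (k - 1) / 32)) ≤ 2 ^ (-((k : ℝ) * (k - 1) / 32)) := by
      have e3 : (0 : ℝ) ≤ (k : ℝ) * (k - 1) / 32 := by
        have : (0 : ℝ) ≤ (k : ℝ) * (k - 1) := by nlinarith
        positivity
      rw [Real.exp_neg, Real.rpow_neg (by norm_num)]
      apply inv_anti₀ (by positivity)
      calc (2 : ℝ) ^ ((k : ℝ) * (k - 1) / 32) ≤ (Real.exp 1) ^ ((k : ℝ) * (k - 1) / 32) :=
            Real.rpow_le_rpow (by norm_num) he2 e3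
        _ = _ := by rw [← Real.exp_mul, one_mul]
    have e5 : ((2 : ℝ) ^ μ) ^ k = 2 ^ ((μ : ℝ) * k) := by
      rw [← pow_mul, ← Real.rpow_natCast]
      push_cast
      rfl
    rw [e5]
    calc (2 : ℝ) ^ ((μ : ℝ) * k) * Real.exp (-((k : ℝ) * (k - 1) / 32)) ≤
        2 ^ ((μ : ℝ) * k) * 2 ^ (-((k : ℝ) * (k - 1) / 32)) := by gcongr
      _ = 2 ^ ((μ : ℝ) * k + -((k : ℝ) * (k - 1) / 32)) := by
          rw [← Real.rpow_add (by norm_num)]
      _ ≤ 2 ^ (-2 : ℝ) := by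
          apply Real.rpow_le_rpow_of_exponent_le (by norm_num)
          have e6 : (μ : ℝ) * k ≤ k / 48 * k := mul_le_mul_of_nonneg_right hμ3 hk0.le
          have e7 : (24 : ℝ) * k ≤ k * k := mul_le_mul_of_nonneg_right hkR hk0.le
          have e8 : (k : ℝ) * (k - 1) / 32 = k * k / 32 - k / 32 := by ring
          have e9 : (k : ℝ) / 48 * k = k * k / 48 := by ring
          rw [e8]
          rw [e9] at e6
          linarith
      _ = 1 / 4 := by
          rw [Real.rpow_neg (by norm_num)]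
          norm_num

/-- The lower bound. -/
theorem lower_num (δ : ℝ) (hδ : 0 < δ) (hδ1 : δ ≤ 1 / 4) (k : ℕ) (hx : 2400 ≤ δ * k)
    (hcube : 2 * (k : ℝ) ^ 3 ≤ 2 ^ (δ * k / 4)) :
    ∃ (n W : ℕ) (A B : Fin W → Finset (Fin n)) (G : SimpleGraph (Fin n)),
      (W : ℝ) ≤ 2 ^ (δ * k) ∧ (2 : ℝ) ^ (1 / 200 * (δ * Real.logb 2 (1 / δ)) * k) ≤ n ∧
      (∀ i, Disjoint (A i) (B i)) ∧
      (∀ x y, G.Adj x y ↔ ∃ i, (x ∈ A i ∧ y ∈ B i) ∨ (x ∈ B i ∧ y ∈ A i)) ∧
      G.CliqueFree k ∧ Gᶜ.CliqueFree k := by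
  set L := Real.logb 2 (1 / δ) with hL
  have hL2 : 2 ≤ L := by
    rw [hL, Real.le_logb_iff_rpow_le (by norm_num) (by positivity)]
    rw [le_div_iff₀ hδ]
    norm_num
    linarith
  set h := ⌊L / 2⌋₊ with hh
  have hh1 : (h : ℝ) ≤ L / 2 := Nat.floor_le (by linarith)
  have hh2 : L / 4 ≤ h := by
    have h1 : 1 ≤ h := by
      rw [hh]
      exact Nat.le_floor (by push_cast; linarith)
    have h1' : (1 : ℝ) ≤ h := by exact_mod_cast h1
    have h2 : L / 2 < h + 1 := Nat.lt_floor_add_one _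
    by_cases h4 : L ≤ 4
    · linarith
    · linarith
  have h4h : δ * 4 ^ h ≤ 1 := by
    have e1 : (4 : ℝ) ^ h ≤ 1 / δ := by
      calc (4 : ℝ) ^ h = 2 ^ (2 * (h : ℝ)) := by
            rw [Real.rpow_mul (by norm_num), Real.rpow_natCast]
            norm_num
        _ ≤ 2 ^ L := Real.rpow_le_rpow_of_exponent_le (by norm_num) (by linarith)
        _ = 1 / δ := by
            rw [hL]
            exact Real.rpow_logb (by norm_num) (by norm_num) (by positivity)
    calc δ * 4 ^ h ≤ δ * (1 / δ) := mul_le_mul_of_nonneg_left e1 hδ.le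
      _ = 1 := by field_simp
  have hk0 : (0 : ℝ) < k := by
    by_contra hcon
    have : (k : ℝ) = 0 := le_antisymm (not_lt.1 hcon) (Nat.cast_nonneg k)
    rw [this] at hx
    norm_num at hx
  have hkx : (2400 : ℝ) ≤ k := by
    have : δ * k ≤ 1 / 4 * k := mul_le_mul_of_nonneg_right hδ1 hk0.le
    linarith
  have hkk₃ : 24 * 2 ^ h ≤ k := by
    have e1 : δ * k * 4 ^ h ≤ k := by
      calc δ * k * 4 ^ h = (δ * 4 ^ h) * k := by ring
        _ ≤ 1 * k := mul_le_mul_of_nonneg_right h4h hk0.le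
        _ = k := one_mul _
    have e2 : (2400 : ℝ) * 4 ^ h ≤ k :=
      (mul_le_mul_of_nonneg_right hx (by positivity)).trans e1
    have e3 : (2 : ℝ) ^ h ≤ 4 ^ h := pow_le_pow_left₀ (by norm_num) (by norm_num) h
    have e4 : (24 : ℝ) * 2 ^ h ≤ k := by
      have : (0 : ℝ) ≤ 4 ^ h := by positivity
      linarith
    exact_mod_cast e4
  set m := ⌊(2 : ℝ) ^ (δ * k / 2)⌋₊ with hm
  have hm1 : (m : ℝ) ≤ 2 ^ (δ * k / 2) := Nat.floor_le (by positivity)
  have hm2 : (2 : ℝ) ^ (δ * k / 2) / 2 ≤ m := by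
    have e1 : (2 : ℝ) ^ (δ * k / 2) < m + 1 := Nat.lt_floor_add_one _
    have e2 : (2 : ℝ) ≤ 2 ^ (δ * k / 2) := by
      calc (2 : ℝ) = 2 ^ (1 : ℝ) := by norm_num
        _ ≤ _ := Real.rpow_le_rpow_of_exponent_le (by norm_num) (by linarith)
    linarith
  have hm3 : (k : ℝ) ^ 3 * 2 ^ (δ * k / 4) ≤ m := by
    refine le_trans ?_ hm2
    have e1 : (2 : ℝ) ^ (δ * k / 2) = 2 ^ (δ * k / 4) * 2 ^ (δ * k / 4) := by
      rw [← Real.rpow_add (by norm_num)]
      congr 1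
      ring
    rw [e1]
    have e2 : (0 : ℝ) < 2 ^ (δ * k / 4) := by positivity
    have e3 := mul_le_mul_of_nonneg_right hcube e2.le
    linarith
  set μ := ⌊δ * h * k / 48⌋₊ with hμ
  have hμ1 : (μ : ℝ) ≤ δ * h * k / 48 := Nat.floor_le (by positivity)
  have hμ2 : δ * h * k / 48 < μ + 1 := Nat.lt_floor_add_one _
  obtain ⟨ω, h1, h2⟩ := good_numbers δ hδ h k m μ h4h hkk₃ (by linarith) hm3 hμ1
  refine ⟨2 ^ μ, m ^ 2, fun i => univ.filter (fun x => (ω i x).val = 0),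
    fun i => univ.filter (fun x => (ω i x).val = 1), gr ω, ?_, ?_, ?_, ?_, h1, h2⟩
  · push_cast
    calc (m : ℝ) ^ 2 ≤ (2 ^ (δ * k / 2)) ^ 2 := pow_le_pow_left₀ (Nat.cast_nonneg _) hm1 2
      _ = 2 ^ (δ * k) := by
          rw [← Real.rpow_natCast, ← Real.rpow_mul (by norm_num)]
          congr 1
          push_cast
          ring
  · push_cast
    rw [← Real.rpow_natCast]
    apply Real.rpow_le_rpow_of_exponent_le (by norm_num)
    have e1 : δ * (L / 4) * k / 48 ≤ δ * h * k / 48 := by gcongr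
    have e2 : 4800 ≤ δ * L * k := by
      have e3 : δ * k * 2 ≤ δ * k * L := mul_le_mul_of_nonneg_left hL2 (by positivity)
      have e4 : δ * k * L = δ * L * k := by ring
      linarith
    linarith
  · intro i
    rw [Finset.disjoint_left]
    intro x hx hy
    have e1 := (mem_filter.1 hx).2
    have e2 := (mem_filter.1 hy).2
    omega
  · intro x y
    simp only [mem_filter, mem_univ, true_and]
    rfl

end Pool.Agent.Y424.BC
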