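import Pool.Agent.Y424.DL.Asym

/-!
# Decision lists of complete bipartite graphs: homogeneous sets
-/

set_option autoImplicit false

namespace Pool.Agent.Y424.BC

open Finset
open Pool.Agent.Y424.DL (rrun Clq base choose_le)

/-- The colour of the pair `x, y` given by a list of complete bipartite graphs with colours: the
colour of the first one which contains the pair, and the colour `d` if there is none. -/
def pairColour {n : ℕ} : List ((Finset (Fin n) × Finset (Fin n)) × Bool) → Bool →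
    Fin n → Fin n → Bool
  | [], d, _, _ => d
  | R :: l, d, x, y =>
    if (x ∈ R.1.1 ∧ y ∈ R.1.2) ∨ (x ∈ R.1.2 ∧ y ∈ R.1.1) then R.2 else pairColour l d x y

/-- indicator function of a set of vertices -/
def ind {n : ℕ} (A : Finset (Fin n)) (x : ℕ) : Bool := if h : x < n then decide (⟨x, h⟩ ∈ A) else false

theorem ind_val {n : ℕ} (A : Finset (Fin n)) (x : Fin n) : ind A x = true ↔ x ∈ A := by
  simp [ind]

/-- the rectangles -/
def toRects {n : ℕ} : List ((Finset (Fin n) × Finset (Fin n)) × Bool) →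
    List (((ℕ → Bool) × (ℕ → Bool)) × Bool)
  | [] => []
  | R :: l => ((ind R.1.1, ind R.1.2), R.2) :: ((ind R.1.2, ind R.1.1), R.2) :: toRects l

theorem toRects_length {n : ℕ} (l : List ((Finset (Fin n) × Finset (Fin n)) × Bool)) :
    (toRects l).length = 2 * l.length := by
  induction l with
  | nil => rfl
  | cons R l ih => simp only [toRects, List.length_cons, ih]; ring

theorem rrun_toRects {n : ℕ} (d : Bool) (l : List ((Finset (Fin n) × Finset (Fin n)) × Bool))
    (x y : Fin n) : rrun (toRects l) d x y = pairColour l d x y := by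
  induction l with
  | nil => rfl
  | cons R l ih =>
    simp only [toRects, rrun, pairColour, ind_val, ih]
    by_cases h1 : x ∈ R.1.1 ∧ y ∈ R.1.2
    · rw [if_pos h1, if_pos (Or.inl h1)]
    · rw [if_neg h1]
      by_cases h2 : x ∈ R.1.2 ∧ y ∈ R.1.1
      · rw [if_pos h2, if_pos (Or.inr h2)]
      · rw [if_neg h2, if_neg]
        rintro (h | h)
        · exact h1 h
        · exact h2 h

theorem pairColour_comm {n : ℕ} (d : Bool) (l : List ((Finset (Fin n) × Finset (Fin n)) × Bool))
    (x y : Fin n) : pairColour l d x y = pairColour l d y x := by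
  induction l with
  | nil => rfl
  | cons R l ih =>
    simp only [pairColour]
    rw [ih]
    congr 1
    apply propext
    tauto

/-- Explicit upper bound. -/
theorem upper {n k a j : ℕ} (l : List ((Finset (Fin n) × Finset (Fin n)) × Bool)) (d : Bool)
    (G : SimpleGraph (Fin n)) (hG : ∀ x y, x ≠ y → (G.Adj x y ↔ pairColour l d x y = true))
    (hk : k ≤ 2 ^ j * a)
    (hn : (2 * (2 * l.length + 1)) ^ (2 * j) * (a + k).choose a ≤ n) :
    ¬ G.CliqueFree k ∨ ¬ Gᶜ.CliqueFree k := by
  classical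
  obtain ⟨c, S, hS, hSc, hSh⟩ := base (toRects l) d (2 * l.length + 1) a k j
    (by rw [toRects_length]) hk (range n) (by rw [card_range]; exact hn)
  have hlt : ∀ x ∈ S, x < n := fun x hx => mem_range.1 (hS hx)
  let T : Finset (Fin n) := univ.filter (fun x => (x : ℕ) ∈ S)
  have hTc : T.card = k := by
    rw [← hSc]
    apply card_bij (fun (x : Fin n) _ => (x : ℕ))
    · intro x hx
      exact (mem_filter.1 hx).2
    · intro x _ y _ h
      exact Fin.ext h
    · intro x hx
      exact ⟨⟨x, hlt x hx⟩, mem_filter.2 ⟨mem_univ _, hx⟩, rfl⟩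
  have hTh : ∀ x ∈ T, ∀ y ∈ T, x ≠ y → pairColour l d x y = c := by
    intro x hx y hy hxy
    rcases lt_or_gt_of_ne hxy with h | h
    · rw [← rrun_toRects]
      exact hSh x (mem_filter.1 hx).2 y (mem_filter.1 hy).2 h
    · rw [pairColour_comm, ← rrun_toRects]
      exact hSh y (mem_filter.1 hy).2 x (mem_filter.1 hx).2 h
  cases c with
  | true =>
    left
    intro hcf
    refine hcf T ⟨?_, hTc⟩
    intro x hx y hy hxy
    exact (hG x y hxy).2 (hTh x hx y hy hxy)
  | false =>
    right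
    intro hcf
    refine hcf T ⟨?_, hTc⟩
    intro x hx y hy hxy
    rw [SimpleGraph.compl_adj]
    refine ⟨hxy, fun h => ?_⟩
    have := (hG x y hxy).1 h
    rw [hTh x hx y hy hxy] at this
    exact Bool.noConfusion this

/-- The upper bound. -/
theorem upper_num (δ : ℝ) (hδ : 0 < δ) (hδ1 : δ ≤ 1 / 4) (k : ℕ)
    (hkR : 7 * (⌈Real.logb 2 (1 / δ)⌉₊ : ℝ) + 2 ≤ δ * k)
    (n : ℕ) (l : List ((Finset (Fin n) × Finset (Fin n)) × Bool)) (d : Bool)
    (G : SimpleGraph (Fin n)) (hlen : (l.length : ℝ) ≤ 2 ^ (δ * k))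
    (hG : ∀ x y, x ≠ y → (G.Adj x y ↔ pairColour l d x y = true))
    (h1 : G.CliqueFree k) (h2 : Gᶜ.CliqueFree k) :
    (n : ℝ) ≤ 2 ^ (9 * (δ * Real.logb 2 (1 / δ)) * k) := by
  set L := Real.logb 2 (1 / δ) with hL
  have hL2 : 2 ≤ L := by
    rw [hL, Real.le_logb_iff_rpow_le (by norm_num) (by positivity)]
    rw [le_div_iff₀ hδ]
    norm_num
    linarith
  -- the choice of `j`
  set j := ⌈L⌉₊ with hj
  have hjL : L ≤ j := Nat.le_ceil L
  have hjL' : (j : ℝ) ≤ L + 1 := (Nat.ceil_lt_add_one (by linarith)).le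
  have h2j : 1 / (2 : ℝ) ^ j ≤ δ := by
    have h1 : 1 / δ ≤ (2 : ℝ) ^ j := by
      rw [← Real.rpow_natCast, ← Real.logb_le_iff_le_rpow (by norm_num) (by positivity)]
      exact hjL
    rw [div_le_iff₀ (by positivity)]
    rw [div_le_iff₀ hδ] at h1
    linarith
  have hnn : (0 : ℝ) ≤ k := Nat.cast_nonneg k
  by_contra hcon
  rw [not_le] at hcon
  set a := k / 2 ^ j + 1 with ha
  have hka : k ≤ 2 ^ j * a := by
    rw [ha]
    have h7 := Nat.div_add_mod k (2 ^ j)
    have h8 := Nat.mod_lt k (show 0 < 2 ^ j by positivity)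
    have h9 : 2 ^ j * (k / 2 ^ j + 1) = 2 ^ j * (k / 2 ^ j) + 2 ^ j := by ring
    omega
  rcases upper (a := a) (j := j) l d G hG hka (by
    have hj0 : (0 : ℝ) ≤ j := Nat.cast_nonneg j
    have g1 : (((2 * (2 * l.length + 1)) ^ (2 * j) : ℕ) : ℝ) ≤
        2 ^ (6 * (j : ℝ) + 2 * j * (δ * k)) := by
      push_cast
      have g0 : (1 : ℝ) ≤ 2 ^ (δ * k) := Real.one_le_rpow (by norm_num) (by positivity)
      have g3 : 2 * (2 * (l.length : ℝ) + 1) ≤ 2 ^ (3 + δ * k) := by
        rw [Real.rpow_add (by norm_num)]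
        norm_num
        linarith
      calc (2 * (2 * (l.length : ℝ) + 1)) ^ (2 * j) ≤ (2 ^ (3 + δ * k)) ^ (2 * j) :=
            pow_le_pow_left₀ (by positivity) g3 _
        _ = 2 ^ (6 * (j : ℝ) + 2 * j * (δ * k)) := by
            rw [← Real.rpow_natCast, ← Real.rpow_mul (by norm_num)]
            congr 1
            push_cast
            ring
    have g2 := choose_le (a + k) a j
    have hdiv : (((k / 2 ^ j : ℕ)) : ℝ) ≤ k / 2 ^ j := by
      have := @Nat.cast_div_le ℝ _ _ _ k (2 ^ j)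
      push_cast at this
      exact this
    have h2j1 : (1 : ℝ) ≤ 2 ^ j := one_le_pow₀ (by norm_num)
    have hdiv2 : (k : ℝ) / 2 ^ j ≤ δ * k := by
      calc (k : ℝ) / 2 ^ j = 1 / 2 ^ j * k := by ring
        _ ≤ δ * k := mul_le_mul_of_nonneg_right h2j hnn
    have g3 : (j : ℝ) * a + 2 * ((a + k : ℕ) : ℝ) / 2 ^ j ≤ j * (δ * k) + j + 4 * (δ * k) + 2 := by
      rw [ha]
      push_cast
      have e1 : (j : ℝ) * (((k / 2 ^ j : ℕ) : ℝ) + 1) ≤ j * (δ * k + 1) :=
        mul_le_mul_of_nonneg_left (by linarith) hj0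
      have e2 : 2 * ((((k / 2 ^ j : ℕ) : ℝ) + 1) + k) / 2 ^ j ≤ 4 * (δ * k) + 2 := by
        have e3 : (((k / 2 ^ j : ℕ)) : ℝ) ≤ k := hdiv.trans (div_le_self hnn h2j1)
        have e4 : 2 * ((((k / 2 ^ j : ℕ) : ℝ) + 1) + k) / 2 ^ j ≤ 2 * (2 * k + 1) / 2 ^ j := by
          apply div_le_div_of_nonneg_right _ (by positivity)
          linarith
        have e5 : 2 * (2 * (k : ℝ) + 1) / 2 ^ j = 4 * (k / 2 ^ j) + 2 * (1 / 2 ^ j) := by ring
        have e6 : 1 / (2 : ℝ) ^ j ≤ 1 := by
          rw [div_le_one (by positivity)]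
          exact h2j1
        linarith
      linarith
    have g4 : (((2 * (2 * l.length + 1)) ^ (2 * j) * (a + k).choose a : ℕ) : ℝ) ≤ n := by
      rw [Nat.cast_mul]
      refine le_trans ?_ hcon.le
      calc (((2 * (2 * l.length + 1)) ^ (2 * j) : ℕ) : ℝ) * (((a + k).choose a : ℕ) : ℝ) ≤
          2 ^ (6 * (j : ℝ) + 2 * j * (δ * k)) * 2 ^ (j * (δ * k) + j + 4 * (δ * k) + 2) := by
            apply mul_le_mul g1 (g2.trans _) (by positivity) (by positivity)
            exact Real.rpow_le_rpow_of_exponent_le (by norm_num) g3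
        _ = 2 ^ ((6 * (j : ℝ) + 2 * j * (δ * k)) + (j * (δ * k) + j + 4 * (δ * k) + 2)) := by
            rw [← Real.rpow_add (by norm_num)]
        _ ≤ 2 ^ (9 * (δ * L) * k) := by
            apply Real.rpow_le_rpow_of_exponent_le (by norm_num)
            have e0 : (0 : ℝ) ≤ δ * k := by positivity
            have e1 : (3 * (j : ℝ) + 5) * (δ * k) ≤ (9 * L) * (δ * k) :=
              mul_le_mul_of_nonneg_right (by linarith) e0
            nlinarith
    exact_mod_cast g4) with h | h
  · exact h h1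
  · exact h h2

end Pool.Agent.Y424.BC
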